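import Pool.Agent.helper11.VQ.Spec3b
import Pool.Agent.helper74.VQ.SpecB
import Pool.Agent.helper84.VQ.Spec4a

/-!
# Project VQ (MP_07c750_an), block 4c + 4d: REGULAR CURVES, large deviations along them, iteration, and the final row I7; rows `vq:RXX`

A curve `γ` in `G = SL(2, ℝ)` has the left derivative `ω = [[x/2, b], [c, -x/2]]`, `γ' = γ ω` (`Cv`). `c` is the unstable coordinate. REGULAR CURVES (`RG κ`): `c > 0`, slopes `ξ = x/c`, `β = b/c` small (`ξ² + β² ≤ (κ/100)²`), and on pieces of small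
unstable length `ℓ v' - ℓ v` (`ℓ' = c`) the slopes and `log c` are Lipschitz functions of the unstable length with the constant `κ`. The class `RG 2` is preserved by the flow (time `≥ 1`), after the time `2` one has `RG (1/2)` (row RGF), and a right multiplication
by a fixed element close to `1` maps `RG κ` into `RG (2 κ)` (row RJT): so NO CONSTANT IS LOST along a chain of flow steps and jitters. Start: `u ↦ g lM u` (`x = b = 0`, `c = 1`).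
ALONG THE FLOW `ω` solves the variational equation (`VSol`, helper74 SpecB): with `r = rho`, `k = kap`, `dr`, `dk` = derivatives in the direction `ω`
  `x' = -k(b+c) + dr`, `b' = -rb + kx/2 + dk/2`, `c' = rc + kx/2 - dk/2`, so
  `(log c)' = λ := r + kξ/2 - dk(ξ,β,1)/2`, `ξ' = -k(β+1) + dr(ξ,β,1) - λξ`, `β' = -rβ + kξ/2 + dk(ξ,β,1)/2 - λβ`.
LARGE DEVIATIONS by induction over the class (row RLC): cut a piece into pieces whose unstable length AFTER one window `T0` is in `[l0, 2 l0]`; on each of them the window average is almost constant; the weak law (UWL) bounds the total length of the bad ones.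

RULES. Row `vq:RXX`: file `Pool/Agent/<seat>/VQ/RXX.lean`, `import Pool.Agent.helper93.VQ.Spec4c`, `set_option autoImplicit false`, namespace `Pool.Agent.VQ`, `open Pool.Agent.RS`, `open Pool.Agent.VQE (nm)`, auxiliary lemmas prefixed `RXX_`,
theorem `RXX_proof (h..) : RXX_stmt` (rows listed in `from` may be used as hypotheses `(h : YYY_stmt)`; all rows of the other specs of VQ likewise). No `convert`, `congr!`, `native_decide`, no double quotes, no `private`.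
Numerical values used below: `exp (-1.98) < 0.1381`, `exp (-3.6) < 0.0274`, `exp (-3.78) < 0.0229`, `exp (-0.99) < 0.3716`, `exp (-7.56) < 0.00053` (`Real.exp_bound` or powers of `Real.exp_one_gt_d9`).
-/

open scoped MatrixGroups ContDiff Topology UpperHalfPlane ComplexConjugate ENNReal
open UpperHalfPlane MeasureTheory Filter Set

namespace Pool.Agent.VQ

open Pool.Agent.RS
open Pool.Agent.RPQ (mean)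
open Pool.Agent.VQE (nm)

noncomputable section

/-! ## Definitions -/

/-- the derivative of `rho` in the direction `[[x/2, b], [c, -x/2]]` -/
def dr (U : ℍ → ℝ) (E : ℝ) (g : SL(2, ℝ)) (x b c : ℝ) : ℝ := (n1 U g * x - n2 U g * (b + c)) / (2 * rho U E g)

/-- the derivative of `kap` in the direction `[[x/2, b], [c, -x/2]]` -/
def dk (U : ℍ → ℝ) (E : ℝ) (g : SL(2, ℝ)) (x b c : ℝ) : ℝ :=
  (hess U g 1 0 * x - hess U g 1 1 * (b + c) - (b - c) * n1 U g) / (2 * rho U E g) - kap U E g * dr U E g x b c / rho U E g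

/-- curves with the left derivative `[[x/2, b], [c, -x/2]]` -/
structure Cv (γ : ℝ → SL(2, ℝ)) (x b c : ℝ → ℝ) : Prop where
  der : ∀ v i j, HasDerivAt (fun s => (γ s).1 i j) (((γ v).1 * !![x v / 2, b v; c v, -(x v / 2)]) i j) v
  cx : Continuous x
  cb : Continuous b
  cc : Continuous c

/-- curves in the unstable cone with the unstable length `ℓ` -/
structure CC (κ : ℝ) (γ : ℝ → SL(2, ℝ)) (x b c ℓ : ℝ → ℝ) : Prop extends Cv γ x b c where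
  pos : ∀ v, 0 < c v
  dl : ∀ v, HasDerivAt ℓ (c v) v
  cone : ∀ v, x v ^ 2 + b v ^ 2 ≤ (κ / 100) ^ 2 * c v ^ 2

/-- regular curves -/
structure RG (κ : ℝ) (γ : ℝ → SL(2, ℝ)) (x b c ℓ : ℝ → ℝ) : Prop extends CC κ γ x b c ℓ where
  sl : ∀ v v' : ℝ, v ≤ v' → κ * (ℓ v' - ℓ v) ≤ 1 / 50 → (x v / c v - x v' / c v') ^ 2 + (b v / c v - b v' / c v') ^ 2 ≤ (κ * (ℓ v' - ℓ v)) ^ 2
  di : ∀ v v' : ℝ, v ≤ v' → κ * (ℓ v' - ℓ v) ≤ 1 / 50 → |Real.log (c v') - Real.log (c v)| ≤ κ * (ℓ v' - ℓ v)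

/-- what is used of the flow in this block: `FE` (helper84), bounds for the derivatives of `rho`, `kap` and their Lipschitz constants, and the variational equation -/
structure FF (d : ℝ) (D : Dyn) : Prop extends FE d D where
  r0 : ∀ (E : ℝ) (g : SL(2, ℝ)) (x b c : ℝ), |E| ≤ d / 4 → |dr D.U E g x b c| ≤ d * (|x| + |b| + |c|)
  k0 : ∀ (E : ℝ) (g : SL(2, ℝ)) (x b c : ℝ), |E| ≤ d / 4 → |dk D.U E g x b c| ≤ d * (|x| + |b| + |c|)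
  r1 : ∀ (E : ℝ) (g y : SL(2, ℝ)) (x b c : ℝ), |E| ≤ d / 4 → nm y ≤ 1 / 10 → |dr D.U E (g * y) x b c - dr D.U E g x b c| ≤ d * nm y * (|x| + |b| + |c|)
  k1 : ∀ (E : ℝ) (g y : SL(2, ℝ)) (x b c : ℝ), |E| ≤ d / 4 → nm y ≤ 1 / 10 → |dk D.U E (g * y) x b c - dk D.U E g x b c| ≤ d * nm y * (|x| + |b| + |c|)
  vs : ∀ (E : ℝ) (γ : ℝ → SL(2, ℝ)) (x b c : ℝ → ℝ), |E| ≤ d / 4 → Cv γ x b c → ∃ X Y Z : ℝ → ℝ → ℝ, (∀ v, X 0 v = x v ∧ Y 0 v = b v ∧ Z 0 v = c v) ∧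
    (∀ v, VSol D E (γ v) (fun t => X t v) (fun t => Y t v) (fun t => Z t v)) ∧ ∀ t, Cv (fun v => D.fl E t (γ v)) (X t) (Y t) (Z t)

/-- `-1` -/
def ngM : SL(2, ℝ) := ⟨!![-1, 0; 0, -1], by rw [Matrix.det_fin_two_of]; norm_num⟩

/-- radius of the noise -/
def r2 (A : Prm) (R : ℝ) : ℝ := R ^ (-(1 / 2) + 2 * A.z2)

/-- the noise box -/
def bx (r : ℝ) : Set (ℝ × ℝ × ℝ × ℝ) := Icc (-r) r ×ˢ Icc (-r) r ×ˢ Icc (-r) r ×ˢ Icc (-r) r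

/-- one big step with the noise `o`: unstable, stable, flow and energy component -/
def Phi (D : Dyn) (t : ℝ) (p : SL(2, ℝ) × ℝ) (o : ℝ × ℝ × ℝ × ℝ) : SL(2, ℝ) × ℝ := (D.fl p.2 t (p.1 * lM o.1) * nM o.2.1 * aM o.2.2.1, p.2 + o.2.2.2)

/-- average over the noise (not normalised) -/
def PV (D : Dyn) (A : Prm) (R : ℝ) (V : SL(2, ℝ) × ℝ → ENNReal) (p : SL(2, ℝ) × ℝ) : ENNReal :=
  ∫⁻ o in bx (r2 A R), (V (Phi D (A.tu R) p o) + V (ngM * (Phi D (A.tu R) p o).1, (Phi D (A.tu R) p o).2))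

open Classical in
/-- number of visits to `B` in the first `n` steps of `f` -/
def nbd (f : SL(2, ℝ) → SL(2, ℝ)) (B : Set SL(2, ℝ)) : ℕ → SL(2, ℝ) → ℕ
  | 0, _ => 0
  | n + 1, g => (if g ∈ B then 1 else 0) + nbd f B n (f g)

/-- **DOM** (DOMINATION, owner helper84): one big step of the square of the kernel is dominated by the flow with noise. -/
def DOM_stmt : Prop := ∀ (Γ : Subgroup SL(2, ℝ)) (ch : ℝ → ℝ), QU.SurfaceGroup Γ → CH ch → ∃ δ0 C : ℝ, 0 < δ0 ∧ 1 ≤ C ∧ ∀ (B : ℕ → ℝ) (A : Prm), Adm C A → ∃ R0 : ℝ, 1 ≤ R0 ∧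
  ∀ (R : ℝ) (D : Dyn), R0 ≤ R → OKD Γ δ0 B D → ∀ (p : SL(2, ℝ) × ℝ) (V : SL(2, ℝ) × ℝ → ENNReal), p.2 ∈ Wi (3 / 2) R → Measurable V →
    ∫⁻ q, ‖ub D ch A R p q‖ₑ ^ 2 * V q ∂mW R ≤ ENNReal.ofReal (R ^ (4 + C * A.z2)) * PV D A R V p

/-! ## 1. The flow and its derivative -/

/-- **Row RCD** (C¹ DEPENDENCE ON THE INITIAL POINT; medium-long; from VDN, VUB, VCD, FE4; owner helper80 if he wants: FLC). `X_E(g) = rho A0 + kap K0`; for a matrix `W = [[x/2,b],[c,-x/2]]` put `dX(g, W) = dr A0 + dk K0`. (1) LINEAR ODE: `W' = W X - X W + dX(g(t), W)` along `g(t) = fl E t (γ v)` has continuous coefficients (VUB) and linear growth, so it has a global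
solution with `W(0) = ω(v)` (Picard-Lindeloef on small intervals of fixed length for a linear equation with bounded coefficients, gluing); it has trace `0`: this is `VSol`. (2) TAYLOR: `|X_E(g y) - X_E(g) - dX(g, (y - 1)₀)| ≤ C nm y ^ 2` for `nm y ≤ 1/10` (`(y-1)₀` = trace free part, `x = y₀₀ - y₁₁`; `tr (y - 1) = O(nm y ^ 2)` as `det y = 1`),
`C` depends on `B 3`: the curve `s ↦ g y_s` from `g` to `g y`, e.g. `y_s` = (entries `s y₀₁`, `s y₁₀`, `1 + s (y₀₀ - 1)`, the fourth entry from `det = 1`) has a left derivative `W_s` with `|W_s - (y-1)₀| ≤ C nm y ^ 2`, `|W_s| ≤ C nm y`; by VDN `d/ds X(g y_s) = dX(g y_s, W_s)`, and `|dX(g y_s, W) - dX(g, W)| ≤ C nm y_s |W|` (row RFF, part (b), here with any constant).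
(3) For fixed `v`, `h ≠ 0`: `D(t) = (fl E t (γ v))⁻¹ fl E t (γ (v+h))`, `D' = D X~ - X D` (PD4); `nm D(t) ≤ C_t |h|` (Gronwall, as in GR4 with `ε = 0`). `E(t) = D - 1 - h W`: `E' = E X - X E + (X~ - X) + (D - 1)(X~ - X) - h dX(W)` and `X~ - X = dX(g, (D-1)₀) + O(h²) = dX(g, E₀) + h dX(g, W) + O(h²)`: `|E'| ≤ C |E| + C h²`, `|E(0)| = o(h)` (`Cv.der`).
So `|E(t)| = o(h)` (`norm_le_gronwallBound_of_norm_deriv_right_le`): the derivative of `v ↦ fl E t (γ v)` is `fl E t (γ v) W(t)`. (4) CONTINUITY in `v` of `W(t, v)`: the coefficients of the linear equation are continuous in `(t, v)` (`cfl`), Gronwall for `W(t,v) - W(t,v')` on `[0,t]` (or `[t,0]`). -/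
def RCD_stmt : Prop := ∀ (Γ : Subgroup SL(2, ℝ)), QU.SurfaceGroup Γ → ∃ δ0 : ℝ, 0 < δ0 ∧ ∀ (δ : ℝ) (B : ℕ → ℝ) (D : Dyn), δ ≤ δ0 → OKD Γ δ B D → ∀ (E : ℝ) (γ : ℝ → SL(2, ℝ)) (x b c : ℝ → ℝ), |E| ≤ δ0 → Cv γ x b c →
  ∃ X Y Z : ℝ → ℝ → ℝ, (∀ v, X 0 v = x v ∧ Y 0 v = b v ∧ Z 0 v = c v) ∧ (∀ v, VSol D E (γ v) (fun t => X t v) (fun t => Y t v) (fun t => Z t v)) ∧
    ∀ t, Cv (fun v => D.fl E t (γ v)) (X t) (Y t) (Z t)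

/-- **Row RFF** (medium; from FE4, VUB, VCD, RCD). (a) `FE (K0 δ) D` is FE4; for a larger constant `K = K0 m` use FE4 for `m δ` (`OKD` is monotone in `δ`). `r0`, `k0`: VUB (`|n1|, |n2|, |hess| ≤ δ`, `rho ≥ 4/5`, `|kap| ≤ δ`). `vs` is RCD (`K δ/4 ≤ δ0` of RCD for `δ ≤ δ1`).
(b) `r1`, `k1`: it is enough to show `|u(gy) - u(g)| ≤ C δ nm y` for `u = n1, n2, hess i j, rho` (then `kap = n2/(2 rho)` and the quotients). With `V = Ug U g - 1` on `|v| ≤ 1`: `Ug U (g y) v = Ug U g (m v)`, `m v = cd (y • cdi v) = 2 (A v/2 + B)/(conj B v/2 + conj A)`, `A = (a + d + i(b - c))/2`, `B = (a - d - i(b + c))/2` (entries of `y`): near `v = 0` `m` is holomorphic with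
`|m 0| ≤ 4 nm y ≤ 1/2`, `|m'(0) - 1| ≤ 4 nm y`, `|m''(0)| ≤ 4 nm y`. Chain rule at `0`: `n(gy)_j = fderiv V (m 0) (m'(0) e_j)`, `hess(gy)_jk = D²V(m 0)(m'(0) e_j, m'(0) e_k) + fderiv V (m 0)(m''(0) e_j e_k)`; the derivatives of `V` up to the third order are bounded by `δ` (`Pot.near`), so every difference is at most `C δ nm y`. -/
def RFF_stmt : Prop := ∀ Γ : Subgroup SL(2, ℝ), QU.SurfaceGroup Γ → ∃ K δ1 : ℝ, 4 ≤ K ∧ 0 < δ1 ∧ ∀ (δ : ℝ) (B : ℕ → ℝ) (D : Dyn), 0 < δ → δ ≤ δ1 → OKD Γ δ B D → FF (K * δ) D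

/-! ## 2. Slopes along one orbit and along two orbits -/

/-- **Row RSL** (cone, growth and slopes; medium; pure calculus with `FF`). (1) `Q = η² c² - x² - b²`, `η = 1/25`. `Q' = 2η²c(rc + kx/2 - dk/2) - 2x(-k(b+c) + dr) - 2b(-rb + kx/2 + dk/2)`; by `ro`, `ka`, `r0`, `k0` all terms except `2η² r c² + 2 r b²` are in total at most `9 d (x² + b² + c²)`, so
`Q' - Q ≥ (η²(1 - 2d) - 9d) c² + (1 - 9d)(x² + b²) ≥ 0` (`d ≤ 1/10000`). So `e^(-t) Q` is nondecreasing on `[0, ∞)`, `Q(t) > 0`, `c(t) ≠ 0`, `c(t) > 0` (continuity). (2) `|ξ|, |β| ≤ 1/25`, `λ = c'/c = r + kξ/2 - dk(ξ,β,1)/2 ∈ [1 - 2d, 1 + 2d] ⊂ [99/100, 101/100]` (`dr`, `dk` are homogeneous in `(x,b,c)`), so `e^(-99t/100) c` is nondecreasing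
and `e^(-101t/100) c` nonincreasing. (3) `S = ξ² + β²`: `S' = -2λS - 2rβ² + 2ξ(-k(β+1) + dr) + 2β(kξ/2 + dk/2) ≤ -2(1-2d)S + 4.5 d √S ≤ -(9/5) S + 60 d²` (`4.5 d √S ≤ S/10 + 51 d²`), so `e^(9t/5)(S - (100/3) d²)` is nonincreasing: `S(t) ≤ e^(-9t/5) S(0) + (1 - e^(-9t/5)) (10 d)²`. -/
def RSL_stmt : Prop := ∀ (d : ℝ) (D : Dyn), FF d D → 0 < d → d ≤ 1 / 10000 → ∀ (E : ℝ) (g : SL(2, ℝ)) (x b c : ℝ → ℝ), |E| ≤ d / 4 → VSol D E g x b c → 0 < c 0 → x 0 ^ 2 + b 0 ^ 2 ≤ (1 / 50) ^ 2 * c 0 ^ 2 →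
  ∀ t : ℝ, 0 ≤ t → 0 < c t ∧ (∀ s : ℝ, 0 ≤ s → s ≤ t → Real.exp (99 / 100 * (t - s)) * c s ≤ c t ∧ c t ≤ Real.exp (101 / 100 * (t - s)) * c s) ∧
    ∀ q : ℝ, q ≤ (1 / 50) ^ 2 → x 0 ^ 2 + b 0 ^ 2 ≤ q * c 0 ^ 2 → x t ^ 2 + b t ^ 2 ≤ (Real.exp (-(9 / 5 * t)) * q + (1 - Real.exp (-(9 / 5 * t))) * (10 * d) ^ 2) * c t ^ 2

/-- **Row RTW** (two orbits; medium; pure calculus with `FF`). `Λ_t = Λ e^(-99(T-t)/100)`, `nm D(t) ≤ 2Λ_t ≤ 1/10`; `g2(t) = g1(t) D(t)`. `lr`, `lk` (`E' = E`): `|r - r~|, |k - k~| ≤ 2dΛ_t`; `r0`, `k0`, `r1`, `k1` and linearity of `dr`, `dk` in `(x,b,c)`: `|dr(g1; ξ,β,1) - dr(g2; ξ~,β~,1)| ≤ d(|Δξ| + |Δβ|) + 2.2 dΛ_t`, the same for `dk`.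
`|λ - λ~| ≤ 4dΛ_t + 2d|Δ|`, `|Δ|² = X = Δξ² + Δβ²`. `X' = -(λ + λ~)X - ... ≤ -2(1-2d)X + 2√X (6d√X + 12dΛ_t) ≤ -(9/5)X + 3000 d²Λ_t²` (`24 dΛ_t√X ≤ X/20 + 2880 d²Λ_t²`). As `(e^(9t/5) Λ_t²)' = (9/5 + 198/100) e^(9t/5)Λ_t²`, the function `e^(9t/5)(X - 1000 d²Λ_t²)` is nonincreasing: `X(t) ≤ e^(-9t/5)X(0) + (100dΛ_t)²` for all `t ∈ [0,T]`.
`log c1 - log c2` has the derivative `λ - λ~`: `∫_0^T (4dΛ_t + 2d(e^(-9t/10)X0 + 100dΛ_t)) ≤ 20d(Λ + X0)`. -/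
def RTW_stmt : Prop := ∀ (d : ℝ) (D : Dyn), FF d D → 0 < d → d ≤ 1 / 10000 → ∀ (E T Λ X0 : ℝ) (g1 g2 : SL(2, ℝ)) (x1 b1 c1 x2 b2 c2 : ℝ → ℝ), |E| ≤ d / 4 → 0 ≤ T → 0 ≤ Λ → Λ ≤ 1 / 20 → 0 ≤ X0 →
  VSol D E g1 x1 b1 c1 → VSol D E g2 x2 b2 c2 →
  (∀ t : ℝ, 0 ≤ t → t ≤ T → 0 < c1 t ∧ 0 < c2 t ∧ x1 t ^ 2 + b1 t ^ 2 ≤ (1 / 25) ^ 2 * c1 t ^ 2 ∧ x2 t ^ 2 + b2 t ^ 2 ≤ (1 / 25) ^ 2 * c2 t ^ 2 ∧
    nm ((D.fl E t g1)⁻¹ * D.fl E t g2) ≤ 2 * Λ * Real.exp (-(99 / 100 * (T - t)))) →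
  (x1 0 / c1 0 - x2 0 / c2 0) ^ 2 + (b1 0 / c1 0 - b2 0 / c2 0) ^ 2 ≤ X0 ^ 2 →
    (x1 T / c1 T - x2 T / c2 T) ^ 2 + (b1 T / c1 T - b2 T / c2 T) ^ 2 ≤ Real.exp (-(9 / 5 * T)) * X0 ^ 2 + (100 * d * Λ) ^ 2 ∧
    |Real.log (c2 T) - Real.log (c1 T)| ≤ |Real.log (c2 0) - Real.log (c1 0)| + 20 * d * (Λ + X0)

/-! ## 3. Regular curves -/

/-- **Row RDR** (finite differences of a curve in the cone; short-medium; pure). `D(v') = (γ v)⁻¹ γ v'`, `L = ℓ v' - ℓ v`; `D' = D ω`, i.e. `D₀₀' = c(D₀₀ξ/2 + D₀₁)`, `D₀₁' = c(D₀₀β - D₀₁ξ/2)`, `D₁₀' = c(D₁₀ξ/2 + D₁₁)`, `D₁₁' = c(D₁₀β - D₁₁ξ/2)`, `|ξ|, |β| ≤ 1/50`. `N = nm D`: all derivatives of the entries are at most `1.02 c (1 + N)`,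
so `N ≤ e^(1.02 L) - 1 ≤ 0.053` (compare with `e^(1.02 (ℓ v' - ℓ v)) - 1`). Then `|D₀₁'| ≤ 0.022c`, `|D₀₀'| ≤ 0.012c`, `|D₁₁'| ≤ 0.012c`, `|D₁₀' - c| ≤ 0.002c`; integrate (`ℓ' = c`). -/
def RDR_stmt : Prop := ∀ (γ : ℝ → SL(2, ℝ)) (x b c ℓ : ℝ → ℝ), CC 2 γ x b c ℓ → ∀ v v' : ℝ, v ≤ v' → ℓ v' - ℓ v ≤ 1 / 20 →
  nm ((γ v)⁻¹ * γ v') ≤ 11 / 10 * (ℓ v' - ℓ v) ∧ |((γ v)⁻¹ * γ v').1 1 0 - (ℓ v' - ℓ v)| ≤ (ℓ v' - ℓ v) / 100 ∧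
  |((γ v)⁻¹ * γ v').1 0 1| + |((γ v)⁻¹ * γ v').1 0 0 - ((γ v)⁻¹ * γ v').1 1 1| ≤ 9 / 100 * (ℓ v' - ℓ v)

/-- **Row RGF** (THE CLASS IS PRESERVED BY THE FLOW; medium; from RSL, RTW, RDR). `X, Y, Z` from `FF.vs`, `L t v = ∫_0^v Z t u du`. Cone and positivity for all `t ≥ 0`: RSL with `q = (1/50)²` (`(10d)² ≤ (1/50)²`, so the convex combination is `≤ (1/50)²`). Lengths: integrate the growth bounds of RSL. Let `t ≥ 1`, `v ≤ v'`, `Λ = L t v' - L t v`,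
`L0 = ℓ v' - ℓ v ≤ e^(-0.99t)Λ`. CASE `2Λ ≤ 1/50`: `2L0 ≤ 1/50`, so `sl`, `di` hold at the time `0`; for `s ∈ [0,t]` RDR for the curve at the time `s` (`L s v' - L s v ≤ e^(-0.99(t-s))Λ ≤ 1/20`): `nm ≤ 1.1 e^(-0.99(t-s))Λ`. RTW with `T = t`, `X0 = 2L0`: slopes: `(4e^(-3.78t) + 10⁻⁴)Λ² ≤ (2Λ)²`; `log`: `2L0 + 20d(Λ + 2L0) ≤ (2e^(-0.99) + 0.01)Λ ≤ 2Λ`.
CASE `t ≥ 2`, `Λ/2 ≤ 1/50`, i.e. `Λ ≤ 1/25`: `2L0 ≤ 2e^(-1.98)/25 ≤ 1/50`; the same: slopes `(4e^(-7.56) + 10⁻⁴)Λ² ≤ (Λ/2)²`, `log`: `(2e^(-1.98) + 0.01)Λ ≤ Λ/2`; cone: `e^(-3.6)(1/50)² + (10d)² ≤ (1/200)²`. -/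
def RGF_stmt : Prop := ∀ (d : ℝ) (D : Dyn), FF d D → 0 < d → d ≤ 1 / 10000 → ∀ (E : ℝ) (γ : ℝ → SL(2, ℝ)) (x b c ℓ : ℝ → ℝ), |E| ≤ d / 4 → RG 2 γ x b c ℓ →
  ∃ X Y Z L : ℝ → ℝ → ℝ, (∀ v, X 0 v = x v ∧ Y 0 v = b v ∧ Z 0 v = c v) ∧ (∀ v, VSol D E (γ v) (fun t => X t v) (fun t => Y t v) (fun t => Z t v)) ∧
    (∀ t : ℝ, 0 ≤ t → CC 2 (fun v => D.fl E t (γ v)) (X t) (Y t) (Z t) (L t)) ∧ (∀ v v' : ℝ, L 0 v' - L 0 v = ℓ v' - ℓ v) ∧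
    (∀ s t v v' : ℝ, 0 ≤ s → s ≤ t → v ≤ v' → Real.exp (99 / 100 * (t - s)) * (L s v' - L s v) ≤ L t v' - L t v ∧ L t v' - L t v ≤ Real.exp (101 / 100 * (t - s)) * (L s v' - L s v)) ∧
    (∀ t : ℝ, 1 ≤ t → RG 2 (fun v => D.fl E t (γ v)) (X t) (Y t) (Z t) (L t)) ∧ ∀ t : ℝ, 2 ≤ t → RG (1 / 2) (fun v => D.fl E t (γ v)) (X t) (Y t) (Z t) (L t)

/-- **Row RJT** (jitter, and trivial facts; medium; pure). (1) `(γ y)' = γ y (y⁻¹ ω y)`; `ω = c m`, `m = [[ξ/2,β],[1,-ξ/2]]`, `y⁻¹ m y = m + T m`, `T m = y⁻¹ (m (y-1) - (y-1) m)` linear in `m` with entries `≤ 2(1 + nm y)·4 nm y · max |m_ij| ≤ 0.00081 max |m_ij|`, so `c' = c(1 + (T m)₁₀)`, `x' = c(ξ + 2(T m)₀₀)`, `b' = c(β + (T m)₀₁)`. Cone: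
`√(x'² + b'²) ≤ (κ/100 + 0.0019) c ≤ (2κ/100) c'` (`κ = 1/2, 1`). Slopes: `ξ' = (ξ + 2(Tm)₀₀)/(1 + (Tm)₁₀)` etc. are Lipschitz functions of `(ξ, β)`: `|Δ'| ≤ (101/100)|Δ|`, and `|Δ log c'| ≤ |Δ log c| + |Δ|/100`. `ℓ'` = primitive of `c'` (`intervalIntegral.integral_hasDerivAt_right`), `|c' - c| ≤ c/100`.
If `2κ(ℓ' v' - ℓ' v) ≤ 1/50` then `κ(ℓ v' - ℓ v) ≤ 1/50`, and `(101/100)·κL ≤ 2κ·(99/100)L`, `(102/100) κ L ≤ 2κ (99/100) L`. (2) left multiplication: the same `x, b, c, ℓ`. (3) monotone in `κ`. (4) `(g lM u)' = g lM u [[0,0],[1,0]]`. (5) `γ ω = γ ω'` implies `ω = ω'`, and two primitives differ by a constant. -/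
def RJT_stmt : Prop := (∀ (κ : ℝ) (γ : ℝ → SL(2, ℝ)) (x b c ℓ : ℝ → ℝ) (y : SL(2, ℝ)), (κ = 1 / 2 ∨ κ = 1) → RG κ γ x b c ℓ → nm y ≤ 1 / 10000 →
    ∃ x' b' c' ℓ' : ℝ → ℝ, RG (2 * κ) (fun v => γ v * y) x' b' c' ℓ' ∧
      ∀ v v' : ℝ, v ≤ v' → 99 / 100 * (ℓ v' - ℓ v) ≤ ℓ' v' - ℓ' v ∧ ℓ' v' - ℓ' v ≤ 101 / 100 * (ℓ v' - ℓ v)) ∧
  (∀ (κ : ℝ) (γ : ℝ → SL(2, ℝ)) (x b c ℓ : ℝ → ℝ) (h : SL(2, ℝ)), RG κ γ x b c ℓ → RG κ (fun v => h * γ v) x b c ℓ) ∧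
  (∀ (κ κ' : ℝ) (γ : ℝ → SL(2, ℝ)) (x b c ℓ : ℝ → ℝ), 0 < κ → κ ≤ κ' → RG κ γ x b c ℓ → RG κ' γ x b c ℓ) ∧
  (∀ g : SL(2, ℝ), RG (1 / 2) (fun u => g * lM u) (fun _ => 0) (fun _ => 0) (fun _ => 1) (fun u => u)) ∧
  ∀ (κ κ' : ℝ) (γ : ℝ → SL(2, ℝ)) (x b c ℓ x' b' c' ℓ' : ℝ → ℝ), RG κ γ x b c ℓ → RG κ' γ x' b' c' ℓ' → x = x' ∧ b = b' ∧ c = c' ∧ ∀ v v' : ℝ, ℓ v' - ℓ v = ℓ' v' - ℓ' v

/-! ## 4. Large deviations along regular curves -/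

/-- **Row RPI** (pieces; short-medium; PURE). `k = ⌊(ℓ v' - ℓ v)/l0⌋₊ ≥ 1`, `x i` = the point with `ℓ (x i) = ℓ v + (i/k)(ℓ v' - ℓ v)` (intermediate value theorem; `x 0 = v`, `x k = v'`, `x i = v' + (i - k)` for `i > k`): the pieces have the `ℓ`-length `(ℓ v' - ℓ v)/k ∈ [l0, 2 l0]`. The integral over `Icc v v'` is the sum (end points are null sets; half open intervals are disjoint). -/
def RPI_stmt : Prop := ∀ (ℓ : ℝ → ℝ) (v v' l0 : ℝ), Continuous ℓ → StrictMono ℓ → 0 < l0 → v < v' → l0 ≤ ℓ v' - ℓ v → ∃ (k : ℕ) (x : ℕ → ℝ), 1 ≤ k ∧ x 0 = v ∧ x k = v' ∧ (∀ i < k, x i < x (i + 1)) ∧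
  (∀ i < k, l0 ≤ ℓ (x (i + 1)) - ℓ (x i) ∧ ℓ (x (i + 1)) - ℓ (x i) ≤ 2 * l0) ∧ (∑ i ∈ Finset.range k, (x (i + 1) - x i) = v' - v) ∧
  (∀ f : ℝ → ENNReal, ∫⁻ u in Icc v v', f u = ∑ i ∈ Finset.range k, ∫⁻ u in Icc (x i) (x (i + 1)), f u) ∧
  ∀ (J : Finset ℕ) (S : Set ℝ), J ⊆ Finset.range k → (∀ i ∈ J, Icc (x i) (x (i + 1)) ⊆ S) → ENNReal.ofReal (∑ i ∈ J, (x (i + 1) - x i)) ≤ volume (S ∩ Icc v v')

/-- **Row RUW** (the weak law on a piece; short-medium; from RDR). `L = ℓ v' - ℓ v ≤ 1/200`; `di` with `κ = 2`: `c(u)/c(u') ∈ [e^(-0.01), e^(0.01)]` on `[v, v']`, so `c(u)(v' - v) ∈ [e^(-0.01) L, e^(0.01) L]` and `ℓ(u') - ℓ(u) ∈ [e^(-0.01), e^(0.01)]·L (u'-u)/(v'-v)`. The curve `s ↦ γ(v + s(v'-v))` is in `UC (4/l0)`: RDR (`D₁₀` within `1 %` of the unstable length,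
cone `9/100 ≤ (1/10)(99/100)`). `UWL`, and scaling of the Lebesgue measure by `v' - v`. -/
def RUW_stmt : Prop := ∀ (D : Dyn) (F : Set ℍ) (h : ℍ → ℝ) (e v0 l0 T0 E0 E : ℝ) (γ : ℝ → SL(2, ℝ)) (x b c ℓ : ℝ → ℝ) (v v' : ℝ), 0 < l0 → l0 ≤ 1 / 400 → 0 ≤ v0 → UWL D F h e v0 (4 / l0) T0 E0 → |E| ≤ E0 → RG 2 γ x b c ℓ → v < v' →
  l0 ≤ ℓ v' - ℓ v → ℓ v' - ℓ v ≤ 2 * l0 → volume {u : ℝ | u ∈ Icc v v' ∧ e ≤ |avP D h T0 (γ u, E) - mean F h|} ≤ ENNReal.ofReal (v0 * (v' - v))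

/-- **Row RVA** (the averages are almost constant on a piece; medium; from RGF, RDR, RJT). By RJT (5) `x', b', c', ℓ'` are those of RGF at the time `T`. For `t ∈ [0,T]`: `nm ((fl E t (γ u))⁻¹ fl E t (γ u')) ≤ 1.1 (L t u' - L t u) ≤ 1.1 e^(-0.99(T-t)) Λ`, `Λ = ℓ' u' - ℓ' u ≤ 1/100` (RDR). `dist (g y • I) (g • I) = dist (y • I) I ≤ 4 nm y` for `nm y ≤ 1/8`
(`y • i = (ai+b)/(ci+d)`, `Im = 1/(c²+d²)`, `|y•i - i|² = ((a-d)² + (b+c)²)/(c²+d²)`, `sinh(dist/2) = |y•i - i|/(2√Im)`). So the difference of the averages is at most `T⁻¹ ∫_0^T Lh · 4.4 e^(-0.99(T-t)) Λ dt ≤ 10 Lh Λ` (`T ≥ 1`). The integrands are continuous in `t`. -/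
def RVA_stmt : Prop := ∀ (d : ℝ) (D : Dyn), FF d D → 0 < d → d ≤ 1 / 10000 → ∀ (h : ℍ → ℝ) (Lh : ℝ), 0 ≤ Lh → (∀ z w, |h z - h w| ≤ Lh * dist z w) → ∀ (E T : ℝ) (γ : ℝ → SL(2, ℝ)) (x b c ℓ x' b' c' ℓ' : ℝ → ℝ), |E| ≤ d / 4 → 1 ≤ T →
  RG 2 γ x b c ℓ → RG 2 (fun v => D.fl E T (γ v)) x' b' c' ℓ' → ∀ u u' : ℝ, u ≤ u' → ℓ' u' - ℓ' u ≤ 1 / 100 → |avP D h T (γ u, E) - avP D h T (γ u', E)| ≤ 10 * Lh * (ℓ' u' - ℓ' u)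

/-- **Row RLC** (LARGE DEVIATIONS BY INDUCTION OVER THE CLASS; medium; from RGF, RPI). Induction on `n` for all curves. `n = 0`: the integral is `v' - v`. `n + 1`: cut `[v, v']` into pieces of `ℓ`-length in `[l0, 2l0]` (RPI), let `P = [y, y']` be one of them. By RGF `γ1 = fl E T0 ∘ γ` is in `RG 2` with the length `ℓ1 = L T0`, `ℓ1 y' - ℓ1 y ≥ ℓ y' - ℓ y ≥ l0`; cut `P` into pieces `Q` of `ℓ1`-length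
in `[l0, 2l0]`. If some `u ∈ Q` has `γ u ∈ B` then `γ w ∈ B'` for all `w ∈ Q` (first hypothesis): the total length of these BAD `Q` is `≤ v0 (y' - y)` (second hypothesis and the last part of RPI). On `Q`: `z^nbd(n+1, γ u) ≤ z^[Q bad] z^nbd(n, γ1 u)`, and by induction `∫_Q ≤ z^[Q bad] (1 + z v0)^n |Q|` (`γ1`, pieces `Q`). Sum: `(1 + z v0)^n (|P| + z v0 |P|)`.
No measurability is needed (sums over disjoint intervals, constants are finite: `lintegral_const_mul'`). -/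
def RLC_stmt : Prop := ∀ (d : ℝ) (D : Dyn), FF d D → 0 < d → d ≤ 1 / 10000 → ∀ (E T0 l0 v0 z : ℝ) (B B' : Set SL(2, ℝ)), |E| ≤ d / 4 → 1 ≤ T0 → 0 < l0 → l0 ≤ 1 / 400 → 0 ≤ v0 → 1 ≤ z →
  (∀ (γ : ℝ → SL(2, ℝ)) (x b c ℓ x' b' c' ℓ' : ℝ → ℝ), RG 2 γ x b c ℓ → RG 2 (fun v => D.fl E T0 (γ v)) x' b' c' ℓ' → ∀ u w : ℝ, |ℓ' w - ℓ' u| ≤ 2 * l0 → γ u ∈ B → γ w ∈ B') →
  (∀ (γ : ℝ → SL(2, ℝ)) (x b c ℓ : ℝ → ℝ), RG 2 γ x b c ℓ → ∀ v v' : ℝ, v < v' → l0 ≤ ℓ v' - ℓ v → ℓ v' - ℓ v ≤ 2 * l0 → volume {u : ℝ | u ∈ Icc v v' ∧ γ u ∈ B'} ≤ ENNReal.ofReal (v0 * (v' - v))) →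
  ∀ (n : ℕ) (γ : ℝ → SL(2, ℝ)) (x b c ℓ : ℝ → ℝ) (v v' : ℝ), RG 2 γ x b c ℓ → v < v' → l0 ≤ ℓ v' - ℓ v →
    ∫⁻ u in Icc v v', ENNReal.ofReal (z ^ nbd (D.fl E T0) B n (γ u)) ≤ ENNReal.ofReal ((1 + z * v0) ^ n * (v' - v))

open Classical in
/-- **Row RWI** (windows; short; PURE). `I_k = ∫_(kT0)^((k+1)T0) φ`, `N` = number of `k < n` with `|I_k| ≥ (3e/4)T0`: `eτ ≤ |∫_0^τ φ| ≤ Σ |I_k| + T0 ≤ N T0 + n(3e/4)T0 + T0` and `τ ≥ nT0`, so `N ≥ en/4 - 1 ≥ en/8`. -/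
def RWI_stmt : Prop := ∀ (φ : ℝ → ℝ) (e T0 τ : ℝ) (n : ℕ), Continuous φ → (∀ t, |φ t| ≤ 1) → 0 < e → 0 < T0 → n * T0 ≤ τ → τ ≤ (n + 1) * T0 → 8 ≤ e * n → e * τ ≤ |∫ t in (0 : ℝ)..τ, φ t| →
  e / 8 * n ≤ ((Finset.range n).filter fun k : ℕ => 3 / 4 * e * T0 ≤ |∫ t in (k * T0)..((k + 1) * T0), φ t|).card

/-- **Row RLL** (LARGE DEVIATIONS ALONG REGULAR CURVES; medium; from RFF, RLC, RUW, RVA, RWI). `K`, `δ1` of RFF, `δ0 = min δ1 (1/(10000 K))`, `d = K δ0`. `Lh` = Lipschitz constant of `h` (`≥ 0`), `v0 = (2 exp 1)^(-8/e)`, `l0 = min (1/400) (e/(80 (Lh + 1)))`, `z = 1/v0`, `th = e2/(4 T0)`. `R0`: `2 R^(-1/4) ≤ min E0 (d/4)`, `n = ⌊e2 log R/T0⌋₊` satisfies `n ≥ 8/e`, `n ≥ e2 log R/(2 T0)`.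
`B = {g | 3e/4 ≤ |avP T0 (g, E) - mean|}`, `B' = {g | e/2 ≤ ..}`: the first hypothesis of RLC is RVA (`10 Lh · 2 l0 ≤ e/4`), the second RUW. For `(g, E)` in `BadP (e, e2 log R)`: RWI for `φ t = h (fl E t g • I) - mean F h` (`0 ≤ h ≤ 1`, so `|φ| ≤ 1`; `0 < vol F < ∞`: RS.A_GFD and the left side of `uniq`), `I_k = T0 (avP T0 (fl E (kT0) g, E) - mean)` (`add`),
`nbd (fl E T0) B n g` = number of `k < n` with `fl E (kT0) g ∈ B` (`add`): so `1 ≤ z^(-en/8) z^(nbd ..)` on the bad set, and the integral is `≤ z^(-en/8) (1 + z v0)^n (v'-v) = ((2 exp 1)⁻¹ · 2)^n (v'-v) = e^(-n)(v'-v) ≤ R^(-e2/(2T0))(v'-v)`. -/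
def RLL_stmt : Prop := ∀ (Γ : Subgroup SL(2, ℝ)) (F : Set ℍ), QU.SurfaceGroup Γ → QU.NiceDom Γ F → ∃ δ0 : ℝ, 0 < δ0 ∧ ∀ (h : ℍ → ℝ) (e : ℝ), TF Γ h → 0 < e → ∃ v0 l0 : ℝ, 0 < v0 ∧ 0 < l0 ∧ l0 ≤ 1 / 400 ∧
  ∀ T0 E0 e2 : ℝ, 1 ≤ T0 → 0 < E0 → 0 < e2 → ∃ th R0 : ℝ, 0 < th ∧ 1 ≤ R0 ∧ ∀ (B : ℕ → ℝ) (R : ℝ) (D : Dyn), R0 ≤ R → OKD Γ δ0 B D → UWL D F h (e / 2) v0 (4 / l0) T0 E0 →
    ∀ (E : ℝ) (γ : ℝ → SL(2, ℝ)) (x b c ℓ : ℝ → ℝ) (v v' : ℝ), |E| ≤ 2 * R ^ (-(1 / 4) : ℝ) → RG 2 γ x b c ℓ → v < v' → l0 ≤ ℓ v' - ℓ v →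
      ∫⁻ u in Icc v v', (BadP D F h e (e2 * Real.log R)).indicator (fun _ => 1) (γ u, E) ≤ ENNReal.ofReal (R ^ (-(2 * th)) * (v' - v))

/-! ## 5. Iteration -/

/-- **Row RMS** (measurability; short-medium; from MTV). `(p, o) ↦ Phi`: `D.fl E t g` is continuous on `|E| ≤ 1/8` (`cfl`) and `= g` otherwise (`out`), `lM`, `nM`, `aM` are continuous (RS.A_GLC): split at the measurable set `|p.2| ≤ 1/8`. `PV`: `Measurable.lintegral_prod_right'`. `BadP`: `Measurable (avP D h t)` is MTV (its `δ0`; `TF.inv`). -/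
def RMS_stmt : Prop := ∀ Γ : Subgroup SL(2, ℝ), QU.SurfaceGroup Γ → ∃ δ0 : ℝ, 0 < δ0 ∧ ∀ (B : ℕ → ℝ) (D : Dyn), OKD Γ δ0 B D →
  (∀ t : ℝ, Measurable (fun q : (SL(2, ℝ) × ℝ) × (ℝ × ℝ × ℝ × ℝ) => Phi D t q.1 q.2)) ∧ (∀ (A : Prm) (R : ℝ) (V : SL(2, ℝ) × ℝ → ENNReal), Measurable V → Measurable (PV D A R V)) ∧
  ∀ (F : Set ℍ) (h : ℍ → ℝ) (e t : ℝ), QU.NiceDom Γ F → TF Γ h → MeasurableSet (BadP D F h e t)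

/-- **Row RIA** (iteration of the domination; short-medium; from DOM, RMS, SD4 (only `|p.2 - q.2| ≤ R^(-1/2 + 3z2/2) ≤ r2`), I4 (`ub ≠ 0 → Reach`)). Induction on `n`: `qZ (n+1) V p = ∫ ‖ub p y‖² qZ n V y`; for `ub p y ≠ 0`: `|y.2| ≤ |p.2| + r2`, so `qZ n V y ≤ K^n PV^n V y`; then DOM for the measurable function `PV^n V` (`p.2 ∈ Wi (3/2) R`); `PV^[n+1] V = PV (PV^[n] V)`
(`Function.iterate_succ_apply'`). Constants `≥ 0` and finite. -/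
def RIA_stmt : Prop := ∀ (Γ : Subgroup SL(2, ℝ)) (ch : ℝ → ℝ), QU.SurfaceGroup Γ → CH ch → ∃ δ0 C : ℝ, 0 < δ0 ∧ 1 ≤ C ∧ ∀ (B : ℕ → ℝ) (A : Prm), Adm C A → ∃ R0 : ℝ, 1 ≤ R0 ∧
  ∀ (R : ℝ) (D : Dyn), R0 ≤ R → OKD Γ δ0 B D → ∀ (V : SL(2, ℝ) × ℝ → ENNReal), Measurable V → ∀ (n : ℕ) (p : SL(2, ℝ) × ℝ), |p.2| + n * r2 A R ≤ 3 / 2 * R ^ (-(1 / 4) : ℝ) →
    qZ (mW R) (fun x y => ‖ub D ch A R x y‖ₑ) n V p ≤ ENNReal.ofReal (R ^ (4 + C * A.z2)) ^ n * (PV D A R)^[n] V p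

/-- **Row RIB** (iteration along curves; medium; from RFF, RGF, RJT, RMS). `δ0`: RFF with `d = K δ0 ≤ 1/10000`, RMS. `R0`: `A.tu R = m e3 log R ≥ 2`, `2 R^(-1/4) ≤ d/4`, `nm (lM u) ≤ 1/10000`, `nm (nM x aM s) ≤ 1/10000` for `|u|, |x|, |s| ≤ r2`. Induction on `n` for all curves and energies. `n = 0`: hypothesis (`RG 1 ⊂ RG 2`). `n + 1`: `PV^[n+1] V = PV W`, `W = PV^[n] V` measurable (RMS);
Tonelli (`lintegral_lintegral_swap`; `(u, o) ↦ Phi (γ u, E) o` is measurable, `γ` continuous): `∫_u PV W (γ u, E) = ∫_(o ∈ bx) ∫_u [W(Phi (γ u, E) o) + W(ngM ..)]`. For fixed `o = (u1, x1, s1, ε)`: `γ lM u1` is in `RG 2` (RJT, `κ = 1`), its flow for the time `τ ≥ 2` in `RG (1/2)` (RGF), times `nM x1 aM s1` in `RG 1` (RJT, `κ = 1/2`); the same with `ngM` on the left. The length grows by at least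
`(99/100)² e^(0.99τ) ≥ e^(0.9τ)`; energy `E + ε`, `|E + ε| + n r2 ≤ |E| + (n+1) r2`. So the inner integral is `≤ 2 (32 r2⁴)^n θ (v'-v)`, and `volume (bx r) = (2r)⁴ = 16 r⁴`. -/
def RIB_stmt : Prop := ∀ Γ : Subgroup SL(2, ℝ), QU.SurfaceGroup Γ → ∃ δ0 : ℝ, 0 < δ0 ∧ ∀ A : Prm, Adm 10 A → ∃ R0 : ℝ, 1 ≤ R0 ∧ ∀ (B : ℕ → ℝ) (R : ℝ) (D : Dyn) (V : SL(2, ℝ) × ℝ → ENNReal) (θ l0 : ℝ), R0 ≤ R → OKD Γ δ0 B D → Measurable V → 0 ≤ θ → 0 < l0 →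
  (∀ (E : ℝ) (γ : ℝ → SL(2, ℝ)) (x b c ℓ : ℝ → ℝ) (v v' : ℝ), |E| ≤ 2 * R ^ (-(1 / 4) : ℝ) → RG 2 γ x b c ℓ → v < v' → l0 ≤ ℓ v' - ℓ v → ∫⁻ u in Icc v v', V (γ u, E) ≤ ENNReal.ofReal (θ * (v' - v))) →
  ∀ (n : ℕ) (E : ℝ) (γ : ℝ → SL(2, ℝ)) (x b c ℓ : ℝ → ℝ) (v v' : ℝ), |E| + n * r2 A R ≤ 2 * R ^ (-(1 / 4) : ℝ) → RG 1 γ x b c ℓ → v < v' → l0 ≤ Real.exp (9 / 10 * (n * A.tu R)) * (ℓ v' - ℓ v) →
    ∫⁻ u in Icc v v', (PV D A R)^[n] V (γ u, E) ≤ ENNReal.ofReal ((32 * r2 A R ^ 4) ^ n * θ * (v' - v))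

/-- **Row RI7** = `I7_stmt` of Spec3i with `C1` AFTER `h, e` (medium; from RLL, RIA, RIB, RMS, RJT, RGF, RFF). Constants: `δ0` = minimum; `C ≥ 10`, `≥` the constant `C'` of RIA. `v0`, `l0` of RLL, `C1 = 4/l0`; `th` = the `th` of RLL, `θ = R^(-2 th)`; `z0 = th e2/(2 (C' + 8))`. For `b`: `A.tu R = e2 log R`, so `b ≤ 0.7/e2`, `1 ≤ b`.
`V = 1_BadP` (RMS). RIA with `n = b`: `|p.2| ≤ (5/4) R^(-1/4)`, `b r2 ≤ (1/4) R^(-1/4)` for `R ≥ R0`. `PV^[b] V p = PV (PV^[b-1] V) p`: Tonelli with the first coordinate `u ∈ [-r2, r2]` innermost: for fixed `(x1, s1, ε)` the curve `u ↦ fl E τ (p.1 lM u) nM x1 aM s1` (and `ngM` times it) is in `RG 1` with the length `≥ (99/100) e^(0.99τ) 2 r2` (RJT (4), RGF, RJT (1)), so RIB with `n = b - 1`: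
`e^(0.9τ(b-1)) (99/100) e^(0.99τ) 2 r2 ≥ R^(0.54) R^(-1/2) ≥ l0`. Total `PV^[b] V p ≤ 2 (2 r2)³ (32 r2⁴)^(b-1) θ 2 r2 = (32 r2⁴)^b θ`, `r2⁴ = R^(-2 + 8 z2)`. So `qZ ≤ (R^(4 + C' z2) 32 R^(-2 + 8 z2))^b R^(-2 th) = (32 R^(2 + (C'+8) z2))^b R^(-2 th)`, and `(64 π)^b R^((C'+8) z2 b) ≤ R^(th/2) R^(th/2)` (`z2 ≤ z0`, `b ≤ 0.7/e2`, `R ≥ R0`). -/
def RI7_stmt : Prop := ∀ (Γ : Subgroup SL(2, ℝ)) (F : Set ℍ) (ch : ℝ → ℝ), QU.SurfaceGroup Γ → QU.NiceDom Γ F → CH ch → ∃ δ0 C : ℝ, 0 < δ0 ∧ 1 ≤ C ∧ ∀ (h : ℍ → ℝ) (e : ℝ), TF Γ h → 0 < e → ∃ v0 C1 : ℝ, 0 < v0 ∧ 1 ≤ C1 ∧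
  ∀ T0 E0 e2 : ℝ, 1 ≤ T0 → 0 < E0 → 0 < e2 → e2 ≤ 1 / 20 → ∃ th z0 : ℝ, 0 < th ∧ 0 < z0 ∧ ∀ (B : ℕ → ℝ) (A : Prm), Adm C A → A.m * A.e3 = e2 → A.z2 ≤ z0 → ∃ R0 : ℝ, 1 ≤ R0 ∧
    ∀ (R : ℝ) (D : Dyn) (b : ℕ), R0 ≤ R → OKD Γ δ0 B D → UWL D F h (e / 2) v0 C1 T0 E0 → 6 / 10 * Real.log R ≤ b * A.tu R → b * A.tu R ≤ 7 / 10 * Real.log R →
      ∀ p : SL(2, ℝ) × ℝ, p.2 ∈ Wi (5 / 4) R → qZ (mW R) (fun x y => ‖ub D ch A R x y‖ₑ) b ((BadP D F h e (A.tu R)).indicator (fun _ => 1)) p ≤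
        ENNReal.ofReal (R ^ (-th) * (R ^ 2 / (2 * Real.pi)) ^ b)

end

end Pool.Agent.VQ
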