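import Pool.Agent.helper93.VQ.Spec4c
import Pool.Agent.helper80.VQ.AllFL
import Pool.Agent.helper84.VQ.All
import Pool.Agent.helper73.VQ.VUB
import Pool.Agent.helper40.VQ.VCD
import Pool.Agent.helper89.VQ.MTV
import Pool.Agent.helper26.VQ.RFF
import Pool.Agent.helper15.VQ.RSL
import Pool.Agent.helper94.VQ.RTW
import Pool.Agent.helper94.VQ.RDR
import Pool.Agent.helper71.VQ.RGF
import Pool.Agent.helper90.VQ.RJT
import Pool.Agent.helper94.VQ.RPI
import Pool.Agent.helper26.VQ.RUW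
import Pool.Agent.helper71.VQ.RVA
import Pool.Agent.helper34.VQ.RLC
import Pool.Agent.helper36.VQ.RWI
import Pool.Agent.helper18.VQ.RLL
import Pool.Agent.helper71.VQ.RMS
import Pool.Agent.helper59.VQ.RIA
import Pool.Agent.helper59.VQ.RIB
import Pool.Agent.helper9.VQ.RI7

/-!
# Project VQ (MP_07c750_an), block 4c+4d (regular curves, large deviations): assembly
-/

set_option autoImplicit false

namespace Pool.Agent.VQ

open Pool.Agent.RS

theorem B4_RFF : RFF_stmt := RFF_proof (FE4_proof F_FLB) (VUB_proof VCD_proof) F_RCD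

theorem B4_RMS : RMS_stmt := RMS_proof (MTV_proof F_FLB)

theorem B4_RGF : RGF_stmt := RGF_proof RSL_proof RTW_proof RDR_proof

theorem B4_RLL : RLL_stmt :=
  RLL_proof B4_RFF (RLC_proof B4_RGF RPI_proof) (RUW_proof RDR_proof)
    (RVA_proof B4_RGF RDR_proof RJT_proof) RWI_proof

theorem B4_RIB : RIB_stmt := RIB_proof B4_RFF B4_RGF RJT_proof B4_RMS

/-- **domination** of one big step -/
theorem B4_DOM (hVYU : VYU_stmt) (hIAM : IAM_stmt) (hI4 : I4_stmt) : DOM_stmt :=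
  A_DOM F_FLB B4_RFF B4_RGF hVYU hIAM hI4

theorem B4_RIA (hVYU : VYU_stmt) (hIAM : IAM_stmt) (hI4 : I4_stmt) : RIA_stmt :=
  RIA_proof (B4_DOM hVYU hIAM hI4) B4_RMS (A_SD4 F_FLB) hI4

theorem B4_eq : RI7_stmt ↔ I7_stmt := Iff.rfl

/-- **(I7)** large deviations, from the interface statements of blocks 1 and 2 -/
theorem B4_I7 (hVYU : VYU_stmt) (hIAM : IAM_stmt) (hI4 : I4_stmt) : I7_stmt :=
  B4_eq.1 (RI7_proof B4_RLL (B4_RIA hVYU hIAM hI4) B4_RIB B4_RMS RJT_proof B4_RGF B4_RFF)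

end Pool.Agent.VQ
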